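import Mathlib
import Pool.Agent.T2H62.MS.D

set_option autoImplicit false

/-! # The exact range of the inequality `π(x + y) ≤ π(x) + π(y)` for sieved random primes

Random primes: every integer `n` without a prime factor `p ≤ A log n` is chosen with probability
`∏_{p ≤ A log n} (1 - 1/p)⁻¹ / log n` (at most `1`), the other integers are not chosen, and the choices are independent
(`A = 1`: Granville's modification of Cramer's model). Let `π_R` be the counting function of the random primes. Almost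
surely, for every `ε > 0` and all large `y`: `π_R(x + y) < π_R(x) + π_R(y)` for all `x ≥ y` with `log x ≤ (1 - ε) y`, and
every interval `(N, 2 N]` with `log N ≥ (1 + ε) y` contains an `x` with
`π_R(x + y) ≥ π_R(x) + π_R(y) + α y log log log y / (log y)²` (`α < 1/2`). Hence the first `x ≥ y` for which the inequality
fails satisfies `log x ∼ y`. -/

namespace Pool.Agent.Results.MP_5046ca_nt.FirstCounterexample

open Finset Filter Topology MeasureTheory ProbabilityTheory

open scoped Classical in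
/-- the probability that `n` is a random prime -/
noncomputable def prob (A : ℝ) (n : ℕ) : ℝ :=
  if ∀ p : ℕ, p.Prime → (p : ℝ) ≤ A * Real.log n → ¬ p ∣ n then
    min 1 ((∏ p ∈ (Icc 1 ⌊A * Real.log n⌋₊).filter Nat.Prime, (1 - (p : ℝ)⁻¹)⁻¹) / Real.log n) else 0

/-- the events `S n` (`n` is a random prime) are independent with the probabilities `prob A n` -/
def Model (A : ℝ) {Ω : Type*} [MeasurableSpace Ω] (μ : Measure Ω) (S : ℕ → Set Ω) : Prop :=
  IsProbabilityMeasure μ ∧ (∀ n, MeasurableSet (S n)) ∧ iIndepSet S μ ∧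
    ∀ n, μ (S n) = ENNReal.ofReal (prob A n)

open scoped Classical in
/-- `π_R(x)`: the number of the random primes up to `x` -/
noncomputable def piR {Ω : Type*} (S : ℕ → Set Ω) (ω : Ω) (x : ℕ) : ℕ :=
  ((Finset.Icc 1 x).filter (fun n => ω ∈ S n)).card

/-- the first `x ≥ y` with `π_R(x + y) > π_R(x) + π_R(y)` -/
noncomputable def first {Ω : Type*} (S : ℕ → Set Ω) (ω : Ω) (y : ℕ) : ℕ :=
  sInf {x : ℕ | y ≤ x ∧ piR S ω x + piR S ω y < piR S ω (x + y)}

theorem result (A : ℝ) (hA : 0 < A) :
    -- the model exists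
    (∃ (μ : Measure (ℕ → Bool)) (S : ℕ → Set (ℕ → Bool)), Model A μ S) ∧
    ∀ (Ω : Type) [MeasurableSpace Ω] (μ : Measure Ω) (S : ℕ → Set Ω), Model A μ S →
      ∀ᵐ ω ∂μ,
        -- the inequality holds up to `exp ((1 - ε) y)`
        (∀ ε : ℝ, 0 < ε → ∀ᶠ y : ℕ in atTop, ∀ x : ℕ, y ≤ x → Real.log x ≤ (1 - ε) * y →
          (piR S ω (x + y) : ℝ) + y / (5 * Real.log y ^ 2) ≤ piR S ω x + piR S ω y) ∧
        -- it fails in all dyadic intervals beyond `exp ((1 + ε) y)`
        (∀ ε : ℝ, 0 < ε → ∀ α : ℝ, α < 1 / 2 → ∀ᶠ y : ℕ in atTop, ∀ N : ℕ, (1 + ε) * y ≤ Real.log N →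
          ∃ x ∈ Ioc N (2 * N),
            (piR S ω x : ℝ) + piR S ω y + α * (y * Real.log (Real.log (Real.log y)) / Real.log y ^ 2) ≤
              piR S ω (x + y)) ∧
        -- the first failure
        (∀ᶠ y : ℕ in atTop, y ≤ first S ω y ∧
          piR S ω (first S ω y) + piR S ω y < piR S ω (first S ω y + y)) ∧
        Tendsto (fun y : ℕ => Real.log (first S ω y) / y) atTop (𝓝 1) := by
  classical
  have hprob : ∀ n, prob A n = Pool.Agent.T2H53.GW.pr A n := fun n => rfl
  refine ⟨?_, ?_⟩
  · obtain ⟨μ, S, h1, h2, h3, h4⟩ := Pool.Agent.T2H53.GW.exists_model (prob A)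
      (fun n => by rw [hprob]; exact Pool.Agent.T2H53.GW.pr_nonneg A n)
      (fun n => by rw [hprob]; exact Pool.Agent.T2H53.GW.pr_le_one A n)
    exact ⟨μ, S, h1, h2, h3, h4⟩
  · rintro Ω _ μ S ⟨hμ, hm, hi, hp⟩
    have hp' : ∀ n, μ.real (S n) = Pool.Agent.T2H53.GW.pr A n := by
      intro n
      rw [measureReal_def, hp n, hprob, ENNReal.toReal_ofReal (Pool.Agent.T2H53.GW.pr_nonneg A n)]
    filter_upwards [Pool.Agent.T2H62.MS.second_low A hA hm hi hp', Pool.Agent.T2H62.MS.second_exists A hA hm hi hp']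
      with ω hω1 hω2
    have e1 : ∀ y, Pool.Agent.T2H62.MD.cnt (Ioc 0 y) S ω = (piR S ω y : ℝ) := by
      intro y
      rw [Pool.Agent.T2H62.MD.cnt_eq]
      rfl
    have e2 : ∀ x y, Pool.Agent.T2H62.MD.cnt (Ioc x (x + y)) S ω = (piR S ω (x + y) : ℝ) - piR S ω x := by
      intro x y
      rw [← e1, ← e1]
      unfold Pool.Agent.T2H62.MD.cnt
      rw [eq_sub_iff_add_eq, add_comm]
      exact sum_Ioc_consecutive _ (by omega) (by omega)
    simp only [e1, e2] at hω1 hω2
    have ha : ∀ ε : ℝ, 0 < ε → ∀ᶠ y : ℕ in atTop, ∀ x : ℕ, y ≤ x → Real.log x ≤ (1 - ε) * y →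
        (piR S ω (x + y) : ℝ) + y / (5 * Real.log y ^ 2) ≤ piR S ω x + piR S ω y := by
      intro ε hε
      filter_upwards [hω1 ε hε] with y hy x h1 h2
      linarith [hy x h1 h2]
    have hb : ∀ ε : ℝ, 0 < ε → ∀ α : ℝ, α < 1 / 2 → ∀ᶠ y : ℕ in atTop, ∀ N : ℕ, (1 + ε) * y ≤ Real.log N →
        ∃ x ∈ Ioc N (2 * N),
          (piR S ω x : ℝ) + piR S ω y + α * (y * Real.log (Real.log (Real.log y)) / Real.log y ^ 2) ≤
            piR S ω (x + y) := by
      intro ε hε α hα
      filter_upwards [hω2 ε hε α hα] with y hy N h1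
      obtain ⟨x, hx, hx2⟩ := hy N h1
      exact ⟨x, hx, by linarith⟩
    -- the first failure: upper bound
    have hT : Tendsto (fun n : ℕ => (n : ℝ)) atTop atTop := tendsto_natCast_atTop_atTop
    have hbig := (Pool.Agent.T2H62.MD.big_gain).eventually_gt_atTop 0
    have hup : ∀ ε : ℝ, 0 < ε → ∀ᶠ y : ℕ in atTop, ∃ x : ℕ, y ≤ x ∧ piR S ω x + piR S ω y < piR S ω (x + y) ∧
        Real.log x ≤ (1 + ε) * y := by
      intro ε hε
      filter_upwards [hb (ε / 2) (by positivity) (1 / 4) (by norm_num), hbig, hT.eventually_ge_atTop (4 / ε),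
        eventually_ge_atTop 1] with y h1 h2 h3 h4
      have hy0 : (0 : ℝ) < y := by exact_mod_cast h4
      obtain ⟨N, hN⟩ : ∃ N : ℕ, N = ⌈Real.exp ((1 + ε / 2) * y)⌉₊ := ⟨_, rfl⟩
      have hN1 : Real.exp ((1 + ε / 2) * y) ≤ N := by rw [hN]; exact Nat.le_ceil _
      have hN2 : (N : ℝ) < Real.exp ((1 + ε / 2) * y) + 1 := by rw [hN]; exact Nat.ceil_lt_add_one (Real.exp_pos _).le
      have hE1 : 1 ≤ Real.exp ((1 + ε / 2) * y) := Real.one_le_exp (by positivity)
      have hN0 : (0 : ℝ) < N := by linarith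
      have hlogN : (1 + ε / 2) * y ≤ Real.log N := by
        rw [Real.le_log_iff_exp_le hN0]
        exact hN1
      obtain ⟨x, hx, hx2⟩ := h1 N hlogN
      rw [mem_Ioc] at hx
      have hyN : (y : ℝ) ≤ N := by
        have h5 := Real.add_one_le_exp ((1 + ε / 2) * (y : ℝ))
        nlinarith
      have hyN' : y ≤ N := by exact_mod_cast hyN
      refine ⟨x, by omega, ?_, ?_⟩
      · have h5 : (piR S ω x : ℝ) + piR S ω y < piR S ω (x + y) := by
          have : 0 < (1 / 4 : ℝ) * (y * Real.log (Real.log (Real.log y)) / Real.log y ^ 2) := by positivity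
          linarith
        exact_mod_cast h5
      · have h5 : (x : ℝ) ≤ 2 * N := by exact_mod_cast hx.2
        have h6 : (x : ℝ) ≤ Real.exp 2 * Real.exp ((1 + ε / 2) * y) := by
          have h8 : Real.exp 2 = Real.exp 1 * Real.exp 1 := by rw [← Real.exp_add]; norm_num
          have h7 := Real.exp_one_gt_d9
          have h9 : (4 : ℝ) ≤ Real.exp 2 := by rw [h8]; nlinarith
          have h10 := mul_le_mul_of_nonneg_right h9 (Real.exp_pos ((1 + ε / 2) * (y : ℝ))).le
          linarith
        rw [← Real.exp_add] at h6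
        have hx0 : (0 : ℝ) < x := by exact_mod_cast (by omega : 0 < x)
        rw [Real.log_le_iff_le_exp hx0]
        refine h6.trans (Real.exp_le_exp.2 ?_)
        rw [div_le_iff₀ hε] at h3
        linarith
    have hmem : ∀ y : ℕ, (∃ x : ℕ, y ≤ x ∧ piR S ω x + piR S ω y < piR S ω (x + y)) → y ≤ first S ω y ∧
        piR S ω (first S ω y) + piR S ω y < piR S ω (first S ω y + y) := by
      intro y hy
      have h1 : first S ω y ∈ {x : ℕ | y ≤ x ∧ piR S ω x + piR S ω y < piR S ω (x + y)} := Nat.sInf_mem hy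
      exact h1
    refine ⟨ha, hb, ?_, ?_⟩
    · filter_upwards [hup 1 one_pos] with y hy
      obtain ⟨x, h1, h2, _⟩ := hy
      exact hmem y ⟨x, h1, h2⟩
    · rw [Metric.tendsto_atTop]
      intro ε hε
      have hev : ∀ᶠ y : ℕ in atTop, dist (Real.log (first S ω y) / y) 1 < ε := by
        filter_upwards [ha (ε / 2) (by positivity), hup (ε / 2) (by positivity), eventually_ge_atTop 3] with y h1 h2 h3
        obtain ⟨x, h4, h5, h6⟩ := h2
        obtain ⟨h7, h8⟩ := hmem y ⟨x, h4, h5⟩
        have hy0 : (0 : ℝ) < y := by exact_mod_cast (by omega : 0 < y)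
        have h9 : first S ω y ≤ x := Nat.sInf_le ⟨h4, h5⟩
        have h10 : Real.log (first S ω y) ≤ Real.log x :=
          Real.log_le_log (by exact_mod_cast (by omega : 0 < first S ω y)) (by exact_mod_cast h9)
        have h11 : (1 - ε / 2) * y < Real.log (first S ω y) := by
          by_contra hcon
          push Not at hcon
          have h12 := h1 (first S ω y) h7 hcon
          have h13 : (piR S ω (first S ω y) : ℝ) + piR S ω y < piR S ω (first S ω y + y) := by exact_mod_cast h8
          have h14 : 0 ≤ (y : ℝ) / (5 * Real.log y ^ 2) := by positivity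
          linarith
        rw [Real.dist_eq, abs_lt]
        constructor
        · have h12 : 1 - ε / 2 < Real.log (first S ω y) / y := by
            rw [lt_div_iff₀ hy0]
            exact h11
          linarith
        · have h12 : Real.log (first S ω y) / y ≤ 1 + ε / 2 := by
            rw [div_le_iff₀ hy0]
            linarith
          linarith
      obtain ⟨n, hn⟩ := eventually_atTop.1 hev
      exact ⟨n, hn⟩

end Pool.Agent.Results.MP_5046ca_nt.FirstCounterexample
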