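import Pool.Agent.T2H62.HRW

/-!
# Windows of length `y` with more than `π(y)` almost primes, one of them a prime and one a product of two primes

For every `α < 1/2` and all large `y` there is a set `T` of places in `{1, ..., y}` with
`|T| ≥ π(y) + α y log log log y / (log y)²` such that, for any two different places `i`, `j` in `T`, the window
`(n, n + y]` has, for a positive proportion of the expected number `X / (log X) ^ |T|` of the `n ≤ X`, the following
form: `n + i` is a prime, `n + j` is a product of at most two large primes, every `n + h`, `h ∈ T`, is a product of at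
most `t` large primes, and every other integer of the window has a bounded prime factor. Dense sets of these `n`
contain narrow progressions.

So the almost prime analogue `ρ_t(y)` of `ρ(y)` satisfies `π(y) - ρ_t(y) ≤ - α y log log log y / (log y)²` for
`t ≥ t(y)`, whereas the question asks if `π(y) - ρ(y)` tends to `+∞`.
-/

set_option autoImplicit false

namespace Pool.Agent.Results.MP_5046ca_nt.HensleyRichardsWindows

open Finset

/-- `v > 1` is a product of at most `r` primes, all of them larger than `y` -/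
def AlmostPrime (r : ℕ) (y : ℝ) (v : ℕ) : Prop :=
  1 < v ∧ v.primeFactorsList.length ≤ r ∧ ∀ q : ℕ, q.Prime → q ∣ v → y < q

open Classical in
/-- the `n` in `(A, B]` such that `n + i` is a prime, `n + j` is a product of at most two primes `> X ^ (1/9)`, every
`n + h`, `h ∈ T`, is a product of at most `t` primes `> X ^ (1/t)`, and every other `n + h`, `1 ≤ h ≤ y`, has a prime
factor `≤ C` -/
noncomputable def Windows (y : ℕ) (T : Finset ℕ) (i j C t X A B : ℕ) : Finset ℕ :=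
  (Ioc A B).filter (fun n : ℕ => (n + i).Prime ∧ AlmostPrime 2 ((X : ℝ) ^ (1 / 9 : ℝ)) (n + j) ∧
    (∀ h ∈ T, AlmostPrime t ((X : ℝ) ^ (1 / (t : ℝ))) (n + h)) ∧
    ∀ h : ℕ, 1 ≤ h → h ≤ y → h ∉ T → ∃ q : ℕ, q.Prime ∧ q ≤ C ∧ q ∣ n + h)

theorem result (α : ℝ) (hα : α < 1 / 2) : ∃ y₀ : ℕ, ∀ y : ℕ, y₀ ≤ y → ∃ T : Finset ℕ, T ⊆ Icc 1 y ∧
    (Nat.primeCounting y : ℝ) + α * (y * Real.log (Real.log (Real.log y)) / Real.log y ^ 2) ≤ T.card ∧
    ∀ i ∈ T, ∀ j ∈ T, i ≠ j → ∃ C t : ℕ, 1 ≤ t ∧ ∃ κ : ℝ, 0 < κ ∧ ∀ (s : ℕ) (θ δ : ℝ), 0 < θ → 0 < δ →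
      ∃ c X₀ : ℕ, ∀ X : ℕ, X₀ ≤ X → ∀ A B : ℕ, B ≤ X → θ * X ≤ (B : ℝ) - A →
        κ * ((B : ℝ) - A) / Real.log X ^ T.card ≤ ((Windows y T i j C t X A B).card : ℝ) ∧
        ∀ S : Finset ℕ, S ⊆ Windows y T i j C t X A B → δ * ((B : ℝ) - A) / Real.log X ^ T.card ≤ S.card →
          ∃ n d : ℕ, 1 ≤ d ∧ (d : ℝ) ≤ Real.log X ^ c ∧ ∀ l < s, n + l * d ∈ S := by
  obtain ⟨y₀, h⟩ := Pool.Agent.T2H62.HRW.large α hα
  refine ⟨y₀, fun y hy => ?_⟩
  obtain ⟨T, h1, h2, h3⟩ := h y hy
  exact ⟨T, h1, h3, fun i hi j hj hij => Pool.Agent.T2H62.HRW.windows y T h2 i j hi hj hij⟩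

end Pool.Agent.Results.MP_5046ca_nt.HensleyRichardsWindows
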