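import Mathlib
import Pool.Agent.T2H62.MD.J

set_option autoImplicit false

/-! # In the sieved random model of the primes `π(y) - ρ(y)` tends to minus infinity

Random primes: every integer `n` without a prime factor `p ≤ A log n` is chosen with probability
`∏_{p ≤ A log n} (1 - 1/p)⁻¹ / log n` (at most `1`), the other integers are not chosen, and the choices are independent
(`A = 1`: Granville's modification of Cramer's model). Let `π_R(y)` be the number of the random primes up to `y` and
`ρ_R(y)` the upper limit of their number in `(x, x + y]` as `x` tends to infinity. Almost surely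
`ρ_R(y) ≥ π_R(y) + α y log log log y / (log y)²` for every `α < 1/2` and all large `y`, so that `π_R(y) - ρ_R(y)` tends
to `-∞`: the answer to the question is negative in the model. The windows are found in all short intervals
`(N, N + N ^ ε]`. -/

namespace Pool.Agent.Results.MP_5046ca_nt.RandomPrimes

open Finset Filter Topology MeasureTheory ProbabilityTheory

open scoped Classical in
/-- the probability that `n` is a random prime -/
noncomputable def prob (A : ℝ) (n : ℕ) : ℝ :=
  if ∀ p : ℕ, p.Prime → (p : ℝ) ≤ A * Real.log n → ¬ p ∣ n then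
    min 1 ((∏ p ∈ (Icc 1 ⌊A * Real.log n⌋₊).filter Nat.Prime, (1 - (p : ℝ)⁻¹)⁻¹) / Real.log n) else 0

/-- the events `S n` (`n` is a random prime) are independent with the probabilities `prob A n` -/
def Model (A : ℝ) {Ω : Type*} [MeasurableSpace Ω] (μ : Measure Ω) (S : ℕ → Set Ω) : Prop :=
  IsProbabilityMeasure μ ∧ (∀ n, MeasurableSet (S n)) ∧ iIndepSet S μ ∧
    ∀ n, μ (S n) = ENNReal.ofReal (prob A n)

open scoped Classical in
/-- the number of the random primes in `(x, x + y]` -/
noncomputable def window {Ω : Type*} (S : ℕ → Set Ω) (ω : Ω) (y x : ℕ) : ℕ :=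
  ((Finset.Ioc x (x + y)).filter (fun n => ω ∈ S n)).card

open scoped Classical in
/-- `π_R(y)`: the number of the random primes up to `y` -/
noncomputable def piR {Ω : Type*} (S : ℕ → Set Ω) (ω : Ω) (y : ℕ) : ℕ :=
  ((Finset.Icc 1 y).filter (fun n => ω ∈ S n)).card

/-- `ρ_R(y)`: the upper limit of the number of the random primes in `(x, x + y]` -/
noncomputable def rhoR {Ω : Type*} (S : ℕ → Set Ω) (ω : Ω) (y : ℕ) : ℕ :=
  limsup (window S ω y) atTop

theorem result (A : ℝ) (hA : 0 < A) :
    -- the model exists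
    (∃ (μ : Measure (ℕ → Bool)) (S : ℕ → Set (ℕ → Bool)), Model A μ S) ∧
    ∀ (Ω : Type) [MeasurableSpace Ω] (μ : Measure Ω) (S : ℕ → Set Ω), Model A μ S →
      ∀ᵐ ω ∂μ,
        Tendsto (fun y : ℕ => (piR S ω y : ℝ) - rhoR S ω y) atTop atBot ∧
        (∀ α : ℝ, α < 1 / 2 → ∀ᶠ y : ℕ in atTop,
          (piR S ω y : ℝ) + α * (y * Real.log (Real.log (Real.log y)) / Real.log y ^ 2) ≤ rhoR S ω y) ∧
        ∀ α : ℝ, α < 1 / 2 → ∀ᶠ y : ℕ in atTop, ∀ ε : ℝ, 0 < ε → ∀ᶠ N : ℕ in atTop,
          ∃ x ∈ Ioc N (N + ⌊(N : ℝ) ^ ε⌋₊),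
            (piR S ω y : ℝ) + α * (y * Real.log (Real.log (Real.log y)) / Real.log y ^ 2) ≤ window S ω y x := by
  classical
  have hprob : ∀ n, prob A n = Pool.Agent.T2H53.GW.pr A n := fun n => rfl
  refine ⟨?_, ?_⟩
  · obtain ⟨μ, S, h1, h2, h3, h4⟩ := Pool.Agent.T2H53.GW.exists_model (prob A)
      (fun n => by rw [hprob]; exact Pool.Agent.T2H53.GW.pr_nonneg A n)
      (fun n => by rw [hprob]; exact Pool.Agent.T2H53.GW.pr_le_one A n)
    exact ⟨μ, S, h1, h2, h3, h4⟩
  · rintro Ω _ μ S ⟨hμ, hm, hi, hp⟩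
    have hp' : ∀ n, μ.real (S n) = Pool.Agent.T2H53.GW.pr A n := by
      intro n
      rw [measureReal_def, hp n, hprob, ENNReal.toReal_ofReal (Pool.Agent.T2H53.GW.pr_nonneg A n)]
    filter_upwards [Pool.Agent.T2H62.MD.second_HL A hA hm hi hp'] with ω hω
    have e1 : ∀ y, Pool.Agent.T2H62.MD.cnt (Ioc 0 y) S ω = (piR S ω y : ℝ) := by
      intro y
      rw [Pool.Agent.T2H62.MD.cnt_eq]
      rfl
    have e2 : ∀ x y, Pool.Agent.T2H62.MD.cnt (Ioc x (x + y)) S ω = (window S ω y x : ℝ) := by
      intro x y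
      rw [Pool.Agent.T2H62.MD.cnt_eq]
      rfl
    simp only [e1, e2] at hω
    have h2 : ∀ α : ℝ, α < 1 / 2 → ∀ᶠ y : ℕ in atTop,
        (piR S ω y : ℝ) + α * (y * Real.log (Real.log (Real.log y)) / Real.log y ^ 2) ≤ rhoR S ω y := by
      intro α hα
      filter_upwards [hω α hα] with y hy
      unfold rhoR
      refine Pool.Agent.T2H62.MD.le_limsup_nat _ y (fun x => ?_) _ ?_
      · unfold window
        refine (card_filter_le _ _).trans ?_
        rw [Nat.card_Ioc]
        omega
      · obtain ⟨N₀, hN₀⟩ := eventually_atTop.1 (hy 1 one_pos)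
        rw [frequently_atTop]
        intro a
        obtain ⟨x, hx, hx2⟩ := hN₀ (max a N₀) (le_max_right _ _)
        rw [mem_Ioc] at hx
        exact ⟨x, by have := le_max_left a N₀; omega, hx2⟩
    refine ⟨?_, h2, hω⟩
    have h3 : Tendsto (fun y : ℕ => -(1 / 4 * ((y : ℝ) * Real.log (Real.log (Real.log y)) / Real.log y ^ 2))) atTop atBot :=
      tendsto_neg_atTop_atBot.comp (Pool.Agent.T2H62.MD.big_gain.const_mul_atTop (by norm_num))
    refine tendsto_atBot_mono' _ ?_ h3
    filter_upwards [h2 (1 / 4) (by norm_num)] with y hy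
    linarith

end Pool.Agent.Results.MP_5046ca_nt.RandomPrimes
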