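import Mathlib
import Pool.Agent.T2H62.MN.B

set_option autoImplicit false

/-! # The windows of length `y` with more than `π_R(y)` sieved random primes are counted exactly

Random primes: every integer `n` without a prime factor `p ≤ A log n` is chosen with probability
`∏_{p ≤ A log n} (1 - 1/p)⁻¹ / log n` (at most `1`), the other integers are not chosen, and the choices are independent
(`A = 1`: Granville's modification of Cramer's model). Let `ρ*(y)` be the largest size of an admissible subset of `[1, y]`.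
Almost surely, for all `y` and all `k ≤ ρ*(y)`, the number of the windows `(x, x + y]`, `N < x ≤ M`, with exactly `k`
(or with at least `k`) random primes is asymptotic to `c (M - N) / (log N) ^ k`, uniformly for `N + N ^ ε ≤ M ≤ 2 N`, where
`c > 0` is the sum of the singular series of the admissible subsets of `[1, y]` with `k` elements; for `k > ρ*(y)` there
are only finitely many such windows. For all large `y` this covers the windows with more than `π_R(y)` random primes. -/

namespace Pool.Agent.Results.MP_5046ca_nt.WindowCounts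

open Finset Filter Topology MeasureTheory ProbabilityTheory

open scoped Classical in
/-- the probability that `n` is a random prime -/
noncomputable def prob (A : ℝ) (n : ℕ) : ℝ :=
  if ∀ p : ℕ, p.Prime → (p : ℝ) ≤ A * Real.log n → ¬ p ∣ n then
    min 1 ((∏ p ∈ (Icc 1 ⌊A * Real.log n⌋₊).filter Nat.Prime, (1 - (p : ℝ)⁻¹)⁻¹) / Real.log n) else 0

/-- the events `S n` (`n` is a random prime) are independent with the probabilities `prob A n` -/
def Model (A : ℝ) {Ω : Type*} [MeasurableSpace Ω] (μ : Measure Ω) (S : ℕ → Set Ω) : Prop :=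
  IsProbabilityMeasure μ ∧ (∀ n, MeasurableSet (S n)) ∧ iIndepSet S μ ∧
    ∀ n, μ (S n) = ENNReal.ofReal (prob A n)

open scoped Classical in
/-- the number of the elements of `R` in `(x, x + y]` -/
noncomputable def window (R : Set ℕ) (y x : ℕ) : ℕ := ((Ioc x (x + y)).filter (fun n => n ∈ R)).card

open scoped Classical in
/-- `π_R(y)`: the number of the elements of `R` up to `y` -/
noncomputable def piR (R : Set ℕ) (y : ℕ) : ℕ := ((Icc 1 y).filter (fun n => n ∈ R)).card

/-- `ρ_R(y)`: the upper limit of the number of the elements of `R` in `(x, x + y]` -/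
noncomputable def rhoR (R : Set ℕ) (y : ℕ) : ℕ := limsup (window R y) atTop

/-- the number of the `x ∈ (N, M]` such that `(x, x + y]` contains exactly `k` elements of `R` -/
noncomputable def exactly (R : Set ℕ) (y k N M : ℕ) : ℕ := ((Ioc N M).filter (fun x => window R y x = k)).card

/-- the number of the `x ∈ (N, M]` such that `(x, x + y]` contains at least `k` elements of `R` -/
noncomputable def atLeast (R : Set ℕ) (y k N M : ℕ) : ℕ := ((Ioc N M).filter (fun x => k ≤ window R y x)).card

/-- the number of the residue classes modulo `p` met by `T` -/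
def classes (T : Finset ℕ) (p : ℕ) : ℕ := (T.image (fun h => h % p)).card

/-- `T` is admissible: it misses a residue class modulo every prime -/
def Admissible (T : Finset ℕ) : Prop := ∀ p : ℕ, p.Prime → classes T p < p

/-- the partial product of the singular series of `T` over the primes `p ≤ z` -/
noncomputable def singular (T : Finset ℕ) (z : ℕ) : ℝ :=
  ∏ p ∈ (Icc 1 z).filter Nat.Prime, (1 - (classes T p : ℝ) / p) * ((1 - (p : ℝ)⁻¹)⁻¹) ^ T.card

open scoped Classical in
/-- the largest size of an admissible subset of `[1, y]` -/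
noncomputable def rhoStar (y : ℕ) : ℕ := ((Icc 1 y).powerset.filter Admissible).sup card

open scoped Classical in
/-- the sum of the partial products of the singular series of all admissible subsets of `[1, y]` with `k` elements -/
noncomputable def singularSum (y k z : ℕ) : ℝ := ∑ T ∈ ((Icc 1 y).powersetCard k).filter Admissible, singular T z

/-- `f N M` is asymptotic to `c (M - N) / (log N) ^ k`, uniformly for `N + N ^ ε ≤ M ≤ 2 N`, for every `ε > 0` -/
def Asymp (f : ℕ → ℕ → ℕ) (c : ℝ) (k : ℕ) : Prop :=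
  ∀ ε δ : ℝ, 0 < ε → 0 < δ → ∀ᶠ N : ℕ in atTop, ∀ M : ℕ, (N : ℝ) + (N : ℝ) ^ ε ≤ M → M ≤ 2 * N →
    |(f N M : ℝ) - c * (((M : ℝ) - N) / Real.log N ^ k)| ≤ δ * (((M : ℝ) - N) / Real.log N ^ k)

theorem result (A : ℝ) (hA : 0 < A) :
    -- the model exists
    (∃ (μ : Measure (ℕ → Bool)) (S : ℕ → Set (ℕ → Bool)), Model A μ S) ∧
    ∀ (Ω : Type) [MeasurableSpace Ω] (μ : Measure Ω) (S : ℕ → Set Ω), Model A μ S →
      ∀ᵐ ω ∂μ, ∀ R : Set ℕ, R = {n | ω ∈ S n} →
        -- the windows with `k` elements
        (∀ y k : ℕ, k ≤ rhoStar y → ∃ c : ℝ, 0 < c ∧ Tendsto (singularSum y k) atTop (𝓝 c) ∧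
          Asymp (exactly R y k) c k ∧ Asymp (atLeast R y k) c k) ∧
        -- no large window contains more than `ρ*(y)` elements
        (∀ y : ℕ, (∀ᶠ x : ℕ in atTop, window R y x ≤ rhoStar y) ∧ rhoR R y = rhoStar y) ∧
        -- for large `y`, the windows with more than `π_R(y)` elements
        ∀ᶠ y : ℕ in atTop, ∃ c : ℝ, 0 < c ∧ Tendsto (singularSum y (piR R y + 1)) atTop (𝓝 c) ∧
          Asymp (atLeast R y (piR R y + 1)) c (piR R y + 1) := by
  classical
  have hprob : ∀ n, prob A n = Pool.Agent.T2H53.GW.pr A n := fun n => rfl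
  refine ⟨?_, ?_⟩
  · obtain ⟨μ, S, h1, h2, h3, h4⟩ := Pool.Agent.T2H53.GW.exists_model (prob A)
      (fun n => by rw [hprob]; exact Pool.Agent.T2H53.GW.pr_nonneg A n)
      (fun n => by rw [hprob]; exact Pool.Agent.T2H53.GW.pr_le_one A n)
    exact ⟨μ, S, h1, h2, h3, h4⟩
  · rintro Ω _ μ S ⟨hμ, hm, hi, hp⟩
    have hp' : ∀ n, μ.real (S n) = Pool.Agent.T2H53.GW.pr A n := fun n => by
      rw [measureReal_def, hp n, ENNReal.toReal_ofReal (by rw [hprob]; exact Pool.Agent.T2H53.GW.pr_nonneg A n), hprob]
    filter_upwards [Pool.Agent.T2H62.MD.HL_short A hA hm hi hp', Pool.Agent.T2H62.MD.second_HL A hA hm hi hp',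
      Pool.Agent.T2H62.MD.ae_none (μ := μ) (S := S) (fun n hn => by
        rw [Measure.real, ENNReal.toReal_eq_zero_iff] at hn
        rcases hn with hn | hn
        · exact hn
        · exact absurd hn (measure_ne_top μ _))] with ω hHL hHR hnone R hR
    have hmem : ∀ n, n ∈ R ↔ ω ∈ S n := fun n => by rw [hR]; rfl
    have hlate : Pool.Agent.T2H62.MN.Late R := Pool.Agent.T2H62.MN.late_of hA (fun n h0 h1 =>
      hnone n (by rw [hp']; exact h0) ((hmem n).1 h1))
    have hcnt : ∀ (T : Finset ℕ) (N M : ℕ), (Pool.Agent.T2H62.MN.Tu R T N M : ℝ) =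
        Pool.Agent.T2H62.MD.cnt (Ioc N M) (Pool.Agent.T2H62.MD.Fh S T) ω := by
      intro T N M
      rw [Pool.Agent.T2H62.MD.cnt_eq]
      unfold Pool.Agent.T2H62.MN.Tu
      congr 2
      apply filter_congr
      intro n _
      unfold Pool.Agent.T2H62.MD.Fh
      simp [hmem]
    have hHL' : Pool.Agent.T2H62.MN.HL R := by
      intro T h0 hadm s hs ε δ hε hδ
      filter_upwards [hHL T h0 hadm s hs ε δ hε hδ] with N hN M hM1 hM2
      rw [hcnt]
      exact hN M hM1 hM2
    have hwin : ∀ y x : ℕ, window R y x = (Pool.Agent.T2H62.MN.Wd R y x).card := by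
      intro y x
      unfold window Pool.Agent.T2H62.MN.Wd
      symm
      apply card_bij' (i := fun h _ => x + h) (j := fun n _ => n - x)
      · intro h hh
        rw [mem_filter, mem_Icc] at hh
        rw [mem_filter, mem_Ioc]
        exact ⟨by omega, hh.2⟩
      · intro n hn
        rw [mem_filter, mem_Ioc] at hn
        rw [mem_filter, mem_Icc]
        refine ⟨by omega, ?_⟩
        have : x + (n - x) = n := by omega
        rw [this]
        exact hn.2
      · intro h hh
        show x + h - x = h
        omega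
      · intro n hn
        rw [mem_filter, mem_Ioc] at hn
        show x + (n - x) = n
        omega
    have hex : ∀ y k N M : ℕ, exactly R y k N M = Pool.Agent.T2H62.MN.Ek R y k N M := by
      intro y k N M
      unfold exactly Pool.Agent.T2H62.MN.Ek
      simp only [hwin]
    have hal : ∀ y k N M : ℕ, atLeast R y k N M = Pool.Agent.T2H62.MN.Em R y k N M := by
      intro y k N M
      unfold atLeast Pool.Agent.T2H62.MN.Em
      simp only [hwin]
    -- sizes of admissible sets
    have hstar : ∀ (y : ℕ) (T : Finset ℕ), T ⊆ Icc 1 y → Admissible T → T.card ≤ rhoStar y := by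
      intro y T hT hadm
      unfold rhoStar
      exact le_sup (f := card) (mem_filter.2 ⟨mem_powerset.2 hT, hadm⟩)
    have hstar2 : ∀ y : ℕ, ∃ T : Finset ℕ, T ⊆ Icc 1 y ∧ Admissible T ∧ T.card = rhoStar y := by
      intro y
      have hne : ((Icc 1 y).powerset.filter Admissible).Nonempty := by
        refine ⟨∅, mem_filter.2 ⟨mem_powerset.2 (empty_subset _), fun p hp => ?_⟩⟩
        simp [classes, hp.pos]
      obtain ⟨T, hT1, hT2⟩ := exists_mem_eq_sup _ hne card
      rw [mem_filter, mem_powerset] at hT1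
      exact ⟨T, hT1.1, hT1.2, hT2.symm⟩
    have hmain : ∀ y k : ℕ, k ≤ rhoStar y → ∃ c : ℝ, 0 < c ∧ Tendsto (singularSum y k) atTop (𝓝 c) ∧
          Asymp (exactly R y k) c k ∧ Asymp (atLeast R y k) c k := by
      intro y k hk
      obtain ⟨T, hT1, hT2, hT3⟩ := hstar2 y
      obtain ⟨T', h1, h2, h3⟩ := Pool.Agent.T2H62.MN.exists_adm y k (rhoStar y) T hT1 hT2 hT3 hk
      obtain ⟨c, hc0, hc⟩ := Pool.Agent.T2H62.MN.sum_pos y k T' h1 h2 h3
      refine ⟨c, hc0, hc, ?_, ?_⟩
      · intro ε δ hε hδ
        filter_upwards [Pool.Agent.T2H62.MN.Ek_asymp hlate hHL' y k ε δ hε hδ c hc] with N hN M hM1 hM2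
        rw [hex]
        exact hN M hM1 hM2
      · intro ε δ hε hδ
        filter_upwards [Pool.Agent.T2H62.MN.Em_asymp hlate hHL' y k ε δ hε hδ c hc] with N hN M hM1 hM2
        rw [hal]
        exact hN M hM1 hM2
    have hle : ∀ y : ℕ, ∀ᶠ x : ℕ in atTop, window R y x ≤ rhoStar y := by
      intro y
      filter_upwards [hlate y] with x hx
      rw [hwin]
      exact hstar y _ (filter_subset _ _) hx
    have hfreq : ∀ y : ℕ, ∃ᶠ x : ℕ in atTop, rhoStar y ≤ window R y x := by
      intro y
      obtain ⟨c, hc0, -, -, h1⟩ := hmain y (rhoStar y) le_rfl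
      have h2 := h1 1 (c / 2) one_pos (by positivity)
      rw [frequently_atTop]
      intro a
      obtain ⟨N, hN1, hN2, hN3⟩ := (h2.and ((eventually_ge_atTop a).and (eventually_ge_atTop 3))).exists
      have h3 := (abs_le.1 (hN1 (2 * N) (by rw [Real.rpow_one]; push_cast; linarith) le_rfl)).1
      have hN0 : (0 : ℝ) < N := by exact_mod_cast (by omega : 0 < N)
      have hl0 : 0 < Real.log N := Real.log_pos (by exact_mod_cast (by omega : 1 < N))
      have h4 : 0 < (((2 * N : ℕ) : ℝ) - N) / Real.log N ^ rhoStar y := by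
        apply div_pos _ (by positivity)
        push_cast
        linarith
      have h5 : (0 : ℝ) < atLeast R y (rhoStar y) N (2 * N) := by nlinarith [mul_pos hc0 h4]
      have h6 : 0 < atLeast R y (rhoStar y) N (2 * N) := by exact_mod_cast h5
      unfold atLeast at h6
      rw [card_pos] at h6
      obtain ⟨x, hx⟩ := h6
      rw [mem_filter, mem_Ioc] at hx
      exact ⟨x, by omega, hx.2⟩
    have hrho : ∀ y : ℕ, rhoR R y = rhoStar y := fun y =>
      Pool.Agent.T2H62.MN.limsup_eq _ _ (hle y) (hfreq y)
    refine ⟨hmain, fun y => ⟨hle y, hrho y⟩, ?_⟩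
    -- more than `π_R(y)` elements
    have e1 : ∀ y, Pool.Agent.T2H62.MD.cnt (Ioc 0 y) S ω = (piR R y : ℝ) := by
      intro y
      rw [Pool.Agent.T2H62.MD.cnt_eq]
      unfold piR
      simp only [hmem]
      rfl
    have e2 : ∀ x y, Pool.Agent.T2H62.MD.cnt (Ioc x (x + y)) S ω = (window R y x : ℝ) := by
      intro x y
      rw [Pool.Agent.T2H62.MD.cnt_eq]
      unfold window
      simp only [hmem]
    simp only [e1, e2] at hHR
    have h1 : ∀ᶠ y : ℕ in atTop, piR R y < rhoStar y := by
      filter_upwards [hHR (1 / 4) (by norm_num), Pool.Agent.T2H62.MD.big_gain.eventually_ge_atTop 1] with y h2 h3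
      have h4 := h2 1 one_pos
      obtain ⟨N, hN1, hN2⟩ := (h4.and (eventually_atTop.2 (eventually_atTop.1 (hle y)))).exists
      obtain ⟨N₀, hN₀⟩ := eventually_atTop.1 (hle y)
      obtain ⟨N₁, h5, h6⟩ := (h4.and (eventually_ge_atTop N₀)).exists
      obtain ⟨x, hx1, hx2⟩ := h5
      rw [mem_Ioc] at hx1
      have h7 := hN₀ x (by omega)
      have h8 : (window R y x : ℝ) ≤ rhoStar y := by exact_mod_cast h7
      have h9 : (piR R y : ℝ) < rhoStar y := by linarith
      exact_mod_cast h9
    filter_upwards [h1] with y hy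
    obtain ⟨c, hc0, hc, -, h2⟩ := hmain y (piR R y + 1) hy
    exact ⟨c, hc0, hc, h2⟩

end Pool.Agent.Results.MP_5046ca_nt.WindowCounts
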